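import Pool.Agent.H69.LQ.Lib

/-!
# Row CD: critical points of the Gaussian potential
-/

open MeasureTheory Metric Set
open scoped ENNReal

open Pool.Agent.H85.LK (E adm lam Ann)
open Pool.Agent.H69.LQ

namespace Pool.Agent.H46.LQ

theorem nsq {N : ℕ} (x o : E N) (i : Fin N) (s : ℝ) :
    ‖x - (o + s • EuclideanSpace.single i (1 : ℝ))‖ ^ 2
      = ‖x - o‖ ^ 2 - 2 * s * (x i - o i) + s ^ 2 := by
  have h1 : x - (o + s • EuclideanSpace.single i (1 : ℝ))
      = (x - o) - s • EuclideanSpace.single i (1 : ℝ) := by abel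
  rw [h1, norm_sub_sq_real, inner_smul_right, norm_smul]
  have h2 : inner ℝ (x - o) (EuclideanSpace.single i (1 : ℝ)) = x i - o i := by
    rw [EuclideanSpace.inner_single_right]
    simp
  have h3 : ‖(EuclideanSpace.single i (1 : ℝ) : E N)‖ = 1 := by simp
  rw [h2, h3, mul_one, Real.norm_eq_abs, sq_abs]
  ring

theorem texp (t : ℝ) : |t| * Real.exp (-t ^ 2) ≤ 1 := by
  have h1 : t ^ 2 + 1 ≤ Real.exp (t ^ 2) := Real.add_one_le_exp _
  have h2 : |t| ≤ t ^ 2 + 1 := by
    have := sq_abs t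
    nlinarith [sq_nonneg (|t| - 1), abs_nonneg t]
  have h3 : |t| ≤ Real.exp (t ^ 2) := le_trans h2 h1
  have h4 : Real.exp (-t ^ 2) = (Real.exp (t ^ 2))⁻¹ := by
    rw [← Real.exp_neg]
  rw [h4, ← div_eq_mul_inv, div_le_one (Real.exp_pos _)]
  exact h3

theorem pf_CD : T_CD := by
  intro N Ω o hΩ hfin hmax i
  let e : E N := EuclideanSpace.single i (1 : ℝ)
  let μ : Measure (E N) := volume.restrict Ω
  have : IsFiniteMeasure μ := ⟨by
    simpa [μ] using lt_top_iff_ne_top.2 hfin⟩
  let F : ℝ → E N → ℝ := fun s x => Real.exp (-‖x - (o + s • e)‖ ^ 2)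
  let F' : ℝ → E N → ℝ := fun s x => Real.exp (-‖x - (o + s • e)‖ ^ 2) * (2 * (x i - o i - s))
  have hFc : ∀ s, Continuous (F s) := by
    intro s
    exact Real.continuous_exp.comp (((continuous_id.sub continuous_const).norm.pow 2).neg)
  have hcoord : Continuous fun x : E N => x i := by fun_prop
  have hF'c : ∀ s, Continuous (F' s) := by
    intro s
    exact (hFc s).mul (continuous_const.mul ((hcoord.sub continuous_const).sub continuous_const))
  have hFb : ∀ s x, |F s x| ≤ 1 := by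
    intro s x
    rw [abs_of_pos (Real.exp_pos _)]
    exact Real.exp_le_one_iff.2 (by nlinarith [sq_nonneg ‖x - (o + s • e)‖])
  have hint : ∀ s, Integrable (F s) μ := by
    intro s
    refine Integrable.mono' (integrable_const (1 : ℝ)) (hFc s).aestronglyMeasurable ?_
    exact Filter.Eventually.of_forall fun x => hFb s x
  have hbd : ∀ s x, ‖F' s x‖ ≤ 2 := by
    intro s x
    set t : ℝ := x i - o i - s with ht
    have h1 : t ^ 2 ≤ ‖x - (o + s • e)‖ ^ 2 := by
      have h2 : (x - (o + s • e)) i = t := by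
        simp [e, ht]
        ring
      have h3 := PiLp.norm_apply_le (x - (o + s • e)) i
      rw [h2, Real.norm_eq_abs] at h3
      rw [← sq_abs t]
      exact pow_le_pow_left₀ (abs_nonneg _) h3 2
    have h4 : Real.exp (-‖x - (o + s • e)‖ ^ 2) ≤ Real.exp (-t ^ 2) :=
      Real.exp_le_exp.2 (by linarith)
    show ‖Real.exp (-‖x - (o + s • e)‖ ^ 2) * (2 * t)‖ ≤ 2
    rw [Real.norm_eq_abs, abs_mul, abs_of_pos (Real.exp_pos _), abs_mul, abs_two]
    have h5 : Real.exp (-‖x - (o + s • e)‖ ^ 2) * |t| ≤ Real.exp (-t ^ 2) * |t| :=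
      mul_le_mul_of_nonneg_right h4 (abs_nonneg _)
    have h6 := texp t
    nlinarith
  have hdiff : ∀ s x, HasDerivAt (fun s => F s x) (F' s x) s := by
    intro s x
    have h1 : (fun s => F s x)
        = fun s => Real.exp (-(‖x - o‖ ^ 2 - 2 * s * (x i - o i) + s ^ 2)) := by
      funext s
      show Real.exp (-‖x - (o + s • e)‖ ^ 2) = _
      rw [nsq x o i s]
    have h2 : HasDerivAt (fun s : ℝ => -(‖x - o‖ ^ 2 - 2 * s * (x i - o i) + s ^ 2))
        (2 * (x i - o i - s)) s := by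
      have h3 : HasDerivAt (fun s : ℝ => 2 * s * (x i - o i)) (2 * 1 * (x i - o i)) s :=
        ((hasDerivAt_id s).const_mul 2).mul_const _
      have h4 : HasDerivAt (fun s : ℝ => s ^ 2) (2 * s) s := by
        simpa using hasDerivAt_pow 2 s
      have h5 := (((hasDerivAt_const s (‖x - o‖ ^ 2)).sub h3).add h4).neg
      refine h5.congr_deriv ?_
      ring
    rw [h1]
    have h6 := h2.exp
    have h7 : F' s x = Real.exp (-(‖x - o‖ ^ 2 - 2 * s * (x i - o i) + s ^ 2))
        * (2 * (x i - o i - s)) := by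
      show Real.exp (-‖x - (o + s • e)‖ ^ 2) * _ = _
      rw [nsq x o i s]
    rw [h7]
    exact h6
  have hD := (hasDerivAt_integral_of_dominated_loc_of_deriv_le (μ := μ) (F := F) (x₀ := (0 : ℝ))
    (s := univ) (bound := fun _ => (2 : ℝ)) Filter.univ_mem
    (Filter.Eventually.of_forall fun s => (hFc s).aestronglyMeasurable) (hint 0) (F' := F')
    (hF'c 0).aestronglyMeasurable
    (Filter.Eventually.of_forall fun x s _ => hbd s x) (integrable_const (2 : ℝ))
    (Filter.Eventually.of_forall fun x s _ => hdiff s x)).2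
  have hloc : IsLocalMax (fun s => ∫ x, F s x ∂μ) 0 := by
    apply Filter.Eventually.of_forall
    intro s
    have h1 := hmax (o + s • e)
    show ∫ x, F s x ∂μ ≤ ∫ x, F 0 x ∂μ
    have h2 : F 0 = fun x => Real.exp (-‖x - o‖ ^ 2) := by
      funext x
      show Real.exp (-‖x - (o + (0 : ℝ) • e)‖ ^ 2) = _
      rw [zero_smul, add_zero]
    rw [h2]
    exact h1
  have hz := hloc.hasDerivAt_eq_zero hD
  have h8 : ∫ x, F' 0 x ∂μ = 2 * ∫ x in Ω, (x i - o i) * Real.exp (-‖x - o‖ ^ 2) := by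
    rw [← integral_const_mul]
    congr 1
    funext x
    show Real.exp (-‖x - (o + (0 : ℝ) • e)‖ ^ 2) * (2 * (x i - o i - 0)) = _
    rw [zero_smul, add_zero]
    ring
  rw [h8] at hz
  linarith

end Pool.Agent.H46.LQ
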