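import Pool.Agent.H54.LQ.Targets

/-!
# The subgroup generated by a relatively open symmetric set, by dense elements (row GEN)
-/

set_option autoImplicit false

open Set Filter Topology

namespace Pool.Agent.H46.LQ

open Pool.Agent.H93.CP Pool.Agent.H7.LP Pool.Agent.H7.LQ Pool.Agent.H54.LQ

theorem pf_GEN : T_GEN := by
  intro G _ _ _ D S δ hSD hinv h1 hop hδD hδ a
  constructor
  · intro ha
    have step : ∀ x y : G, y ∈ S →
        (∃ l : List ℕ, (∀ i ∈ l, δ i ∈ S) ∧ ((l.map δ).prod)⁻¹ * x ∈ S) →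
        ∃ l : List ℕ, (∀ i ∈ l, δ i ∈ S) ∧ ((l.map δ).prod)⁻¹ * (x * y) ∈ S := by
      rintro x y hy ⟨l, hl, hx⟩
      obtain ⟨s', hs'⟩ : ∃ s' : G, s' = ((l.map δ).prod)⁻¹ * x := ⟨_, rfl⟩
      rw [← hs'] at hx
      obtain ⟨O, hO, hO2⟩ := hop y hy
      obtain ⟨O1, hO1, hO12⟩ := hop s' hx
      have hc : Tendsto (fun d : G => d⁻¹ * (s' * y)) (𝓝 s') (𝓝 y) := by
        have h2 : Continuous fun d : G => d⁻¹ * (s' * y) := by fun_prop
        have h3 := h2.tendsto s'
        rwa [inv_mul_cancel_left] at h3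
      have hO' := inter_mem (Filter.mem_map.1 (hc hO)) hO1
      obtain ⟨i, hi⟩ := hδ s' (hSD hx) _ hO'
      have hiS : δ i ∈ S := hO12 _ (hδD i) hi.2
      refine ⟨l ++ [i], ?_, ?_⟩
      · intro j hj
        rcases List.mem_append.1 hj with h | h
        · exact hl j h
        · rw [List.mem_singleton] at h
          rw [h]
          exact hiS
      · have h4 : (((l ++ [i]).map δ).prod)⁻¹ * (x * y) = (δ i)⁻¹ * (s' * y) := by
          rw [hs', List.map_append, List.prod_append]
          simp [mul_assoc]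
        rw [h4]
        exact hO2 _ (D.mul_mem (D.inv_mem (hδD i)) (D.mul_mem (hSD hx) (hSD hy))) hi.1
    induction ha using Subgroup.closure_induction_right with
    | one => exact ⟨[], by simp, by simpa using h1⟩
    | mul_right x hx y hy ih => exact step x y hy ih
    | mul_inv_cancel x hx y hy ih => exact step x y⁻¹ (hinv y hy) ih
  · rintro ⟨l, hl, h⟩
    have h2 : (l.map δ).prod ∈ Subgroup.closure S := by
      apply list_prod_mem
      intro x hx
      obtain ⟨i, hi, rfl⟩ := List.mem_map.1 hx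
      exact Subgroup.subset_closure (hl i hi)
    have h3 := (Subgroup.closure S).mul_mem h2 (Subgroup.subset_closure h)
    rwa [mul_inv_cancel_left] at h3

end Pool.Agent.H46.LQ
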